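import Pool.Agent.Helper84.Kos.Goals2

set_option autoImplicit false

/-!
# MP_315210_al, packet G1: unipotent representations of 2-generator Engel groups
-/

namespace Pool.Agent.Helper49.Kos

open LieAlgebra Pool.Agent.Helper84.Kos

open scoped commutatorElement

attribute [local instance 100] LieRing.ofAssociativeRing

section conj

variable {G : Type} [Group G] {R : Type} [Ring R] (φ : G →* R)

/-- conjugation -/
def cj (g : G) (w : R) : R := φ g⁻¹ * w * φ g

theorem map_inv_mul (g : G) : φ g⁻¹ * φ g = 1 := by rw [← map_mul, inv_mul_cancel, map_one]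

theorem map_mul_inv (g : G) : φ g * φ g⁻¹ = 1 := by rw [← map_mul, mul_inv_cancel, map_one]

theorem cj_one (w : R) : cj φ 1 w = w := by simp [cj]

theorem cj_mul (g h : G) (w : R) : cj φ (g * h) w = cj φ h (cj φ g w) := by
  simp only [cj, mul_inv_rev, map_mul, mul_assoc]

theorem cj_inv_cj (g : G) (w : R) : cj φ g⁻¹ (cj φ g w) = w := by
  rw [← cj_mul, mul_inv_cancel, cj_one]

theorem cj_cj_inv (g : G) (w : R) : cj φ g (cj φ g⁻¹ w) = w := by
  rw [← cj_mul, inv_mul_cancel, cj_one]

theorem cj_sub (g : G) (v w : R) : cj φ g (v - w) = cj φ g v - cj φ g w := by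
  simp only [cj, mul_sub, sub_mul]

variable [Algebra ℚ R] {W : ℕ → Submodule ℚ R}

/-- if all `c_g - 1` raise the filtration then `S_j` contains the lower central series -/
theorem lcs_le (hanti : ∀ i, W (i + 1) ≤ W i)
    (h0 : ∀ g i, ∀ w ∈ W i, cj φ g w - w ∈ W (i + 1)) (j : ℕ) :
    ∀ g ∈ (⊤ : Subgroup G).lowerCentralSeries j, ∀ i, ∀ w ∈ W i,
      cj φ g w - w ∈ W (i + j + 1) := by
  have hpres : ∀ g i, ∀ w ∈ W i, cj φ g w ∈ W i := by
    intro g i w hw
    have h1 := hanti i (h0 g i w hw)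
    have h2 := (W i).add_mem h1 hw
    rwa [sub_add_cancel] at h2
  have hle : ∀ i m, W (i + m) ≤ W i := by
    intro i m
    induction m with
    | zero => exact le_rfl
    | succ m ih => exact le_trans (hanti _) ih
  induction j with
  | zero => intro g _ i w hw; exact h0 g i w hw
  | succ j ih =>
    intro g hg
    rw [Subgroup.mem_lowerCentralSeries_succ_iff] at hg
    refine Subgroup.closure_induction
      (p := fun g _ => ∀ i, ∀ w ∈ W i, cj φ g w - w ∈ W (i + (j + 1) + 1)) ?_ ?_ ?_ ?_ hg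
    · rintro x ⟨g, hg, h, _, rfl⟩ i w hw
      have e1 : ⁅g, h⁆ = (g * h) * (h * g)⁻¹ := by
        rw [commutatorElement_def]; group
      have e2 : cj φ ⁅g, h⁆ w - w = cj φ (h * g)⁻¹ (cj φ (g * h) w - cj φ (h * g) w) := by
        rw [cj_sub, cj_inv_cj, e1, cj_mul]
      rw [e2]
      refine hpres _ _ _ ?_
      rw [cj_mul, cj_mul]
      have e3 : cj φ h (cj φ g w) - cj φ g (cj φ h w) =
          (cj φ h (cj φ g w - w) - (cj φ g w - w)) -
            (cj φ g (cj φ h w - w) - (cj φ h w - w)) := by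
        rw [cj_sub, cj_sub]; abel
      rw [e3]
      refine Submodule.sub_mem _ ?_ ?_
      · have h1 := ih g hg i w hw
        have h2 := h0 h _ _ h1
        have e4 : i + (j + 1) + 1 = i + j + 1 + 1 := by ring
        rw [e4]
        exact h2
      · have h1 := h0 h i w hw
        have h2 := ih g hg (i + 1) _ h1
        have e4 : i + (j + 1) + 1 = i + 1 + j + 1 := by ring
        rw [e4]
        exact h2
    · intro i w _
      rw [cj_one, sub_self]
      exact Submodule.zero_mem _
    · intro x y _ _ hx hy i w hw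
      rw [cj_mul]
      have e : cj φ y (cj φ x w) - w = (cj φ y (cj φ x w) - cj φ x w) + (cj φ x w - w) := by abel
      rw [e]
      exact Submodule.add_mem _ (hy i _ (hpres x i w hw)) (hx i w hw)
    · intro x _ hx i w hw
      have e : cj φ x⁻¹ w - w = - cj φ x⁻¹ (cj φ x w - w) := by
        rw [cj_sub, cj_inv_cj]; abel
      rw [e]
      exact Submodule.neg_mem _ (hpres _ _ _ (hx i w hw))

end conj

section exps

variable {R : Type} [Ring R] [Algebra ℚ R]

theorem exp_neg_eq {G : Type} [Group G] (φ : G →* R) {l : R} (hl : IsNilpotent l) {g : G}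
    (h : IsNilpotent.exp l = φ g) : IsNilpotent.exp (-l) = φ g⁻¹ := by
  have h1 := IsNilpotent.exp_neg_mul_exp_self hl
  rw [h] at h1
  calc IsNilpotent.exp (-l) = IsNilpotent.exp (-l) * (φ g * φ g⁻¹) := by
        rw [map_mul_inv, mul_one]
    _ = φ g⁻¹ := by rw [← mul_assoc, h1, one_mul]

theorem commute_exp {x l : R} (hl : IsNilpotent l) (h : Commute x l) :
    Commute x (IsNilpotent.exp l) := by
  obtain ⟨k, hk⟩ := hl
  rw [IsNilpotent.exp_eq_sum hk]
  refine Commute.sum_right _ _ _ fun i _ => ?_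
  exact (h.pow_right i).smul_right _

end exps

section engel

variable {R : Type} [Ring R] [Algebra ℚ R]

omit [Algebra ℚ R] in
theorem iterate_sign (x : R) (k : ℕ) (z : R) :
    (fun z : R => x * z - z * x)^[k] z = (-1 : R) ^ k * (fun z : R => z * x - x * z)^[k] z := by
  induction k with
  | zero => simp
  | succ k ih =>
    rw [Function.iterate_succ_apply', Function.iterate_succ_apply', ih]
    have hc : Commute x ((-1 : R) ^ k) := (Commute.neg_one_right x).pow_right k
    have e1 : x * ((-1 : R) ^ k * (fun z : R => z * x - x * z)^[k] z) =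
        (-1 : R) ^ k * (x * (fun z : R => z * x - x * z)^[k] z) := by
      rw [← mul_assoc, hc.eq, mul_assoc]
    show x * ((-1 : R) ^ k * _) - ((-1 : R) ^ k * _) * x = (-1 : R) ^ (k + 1) * (_ - _)
    rw [e1, pow_succ]
    noncomm_ring

theorem coe_ad_pow (L : LieSubalgebra ℚ R) (x y : L) (k : ℕ) :
    (((ad ℚ L x ^ k) y : L) : R) = (fun z : R => (x : R) * z - z * x)^[k] (y : R) := by
  induction k with
  | zero => simp
  | succ k ih =>
    rw [pow_succ', Module.End.mul_apply, Function.iterate_succ_apply', ← ih]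
    rw [LieAlgebra.ad_apply, LieSubalgebra.coe_bracket, LieRing.of_associative_ring_bracket]

end engel

/-- the two generators generate the span -/
theorem lieSpan_top {L : Type} [LieRing L] [LieAlgebra ℚ L] (x y : L)
    (K : LieSubalgebra ℚ L) (hK : K = LieSubalgebra.lieSpan ℚ L {x, y}) (hx : x ∈ K) (hy : y ∈ K) :
    LieSubalgebra.lieSpan ℚ K {(⟨x, hx⟩ : K), ⟨y, hy⟩} = ⊤ := by
  rw [eq_top_iff]
  rintro ⟨z, hz⟩ _
  have h1 : K ≤ (LieSubalgebra.lieSpan ℚ K {(⟨x, hx⟩ : K), ⟨y, hy⟩}).map K.incl := by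
    conv_lhs => rw [hK]
    rw [LieSubalgebra.lieSpan_le]
    rintro w (rfl | rfl)
    · exact (LieSubalgebra.mem_map _ _ _).mpr ⟨⟨w, hx⟩, LieSubalgebra.subset_lieSpan (by simp), rfl⟩
    · exact (LieSubalgebra.mem_map _ _ _).mpr ⟨⟨w, hy⟩, LieSubalgebra.subset_lieSpan (by simp), rfl⟩
  obtain ⟨w, hw, hwz⟩ := (LieSubalgebra.mem_map _ _ _).mp (h1 hz)
  have : w = ⟨z, hz⟩ := Subtype.ext hwz
  rwa [← this]

/-- Packet G1. -/
theorem stmtG1 (hL : StmtGL) (ha : StmtG1a) (hb : StmtG1b) (hc : StmtG1c) : StmtG1 := by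
  intro k c hk hBound G _ hE a b hab R _ _ φ hua hub
  obtain ⟨la, hla, hla'⟩ := hL R (φ a - 1) hua
  obtain ⟨lb, hlb, hlb'⟩ := hL R (φ b - 1) hub
  rw [add_sub_cancel] at hla' hlb'
  -- the Lie algebra
  let VL : LieSubalgebra ℚ R :=
    { Submodule.span ℚ (LogSet φ) with
      lie_mem' := by
        intro x y hx hy
        rw [LieRing.of_associative_ring_bracket]
        exact ha G R φ x hx y hy }
  obtain ⟨L0, hL0⟩ : ∃ L0 : LieSubalgebra ℚ R, L0 = LieSubalgebra.lieSpan ℚ R {la, lb} :=
    ⟨_, rfl⟩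
  have hL0V : ∀ x ∈ L0, x ∈ Submodule.span ℚ (LogSet φ) := by
    intro x hx
    have h1 : L0 ≤ VL := by
      rw [hL0, LieSubalgebra.lieSpan_le]
      rintro w (rfl | rfl)
      · exact Submodule.subset_span ⟨hla, a, hla'⟩
      · exact Submodule.subset_span ⟨hlb, b, hlb'⟩
    exact h1 hx
  have hlaL : la ∈ L0 := by rw [hL0]; exact LieSubalgebra.subset_lieSpan (by simp)
  have hlbL : lb ∈ L0 := by rw [hL0]; exact LieSubalgebra.subset_lieSpan (by simp)
  have hEngel : ∀ x : L0, ad ℚ L0 x ^ k = 0 := by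
    intro x
    ext y
    rw [coe_ad_pow, iterate_sign, hb k hk G hE R φ (y : R) (hL0V _ y.2) (x : R) (hL0V _ x.2),
      mul_zero]
    rfl
  have hlcs := hBound L0 hEngel ⟨la, hlaL⟩ ⟨lb, hlbL⟩ (lieSpan_top la lb L0 hL0 hlaL hlbL)
  -- the filtration
  obtain ⟨W, hW⟩ : ∃ W : ℕ → Submodule ℚ R, ∀ i, W i =
      (LieModule.lowerCentralSeries ℚ L0 L0 i).toSubmodule.map L0.toSubmodule.subtype :=
    ⟨_, fun _ => rfl⟩
  have hW0 : ∀ x, x ∈ W 0 ↔ x ∈ L0 := by
    intro x
    rw [hW]
    constructor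
    · rintro ⟨y, _, rfl⟩; exact y.2
    · intro hx
      refine ⟨⟨x, hx⟩, ?_, rfl⟩
      rw [LieModule.lowerCentralSeries_zero]
      exact Submodule.mem_top
  have hWc : W c = ⊥ := by
    rw [hW, hlcs]
    simp
  have hanti : ∀ i, W (i + 1) ≤ W i := by
    intro i
    rw [hW, hW]
    exact Submodule.map_mono (LieModule.antitone_lowerCentralSeries ℚ L0 L0 (Nat.le_succ i))
  have hbr : ∀ l ∈ L0, ∀ i, ∀ w ∈ W i, l * w - w * l ∈ W (i + 1) := by
    intro l hl i w hw
    rw [hW] at hw ⊢
    obtain ⟨y, hy, rfl⟩ := hw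
    refine ⟨⁅(⟨l, hl⟩ : L0), y⁆, ?_, ?_⟩
    · rw [LieModule.lowerCentralSeries_succ]
      exact LieSubmodule.lie_mem_lie (LieSubmodule.mem_top _) hy
    · show ((⁅(⟨l, hl⟩ : L0), y⁆ : L0) : R) = l * (y : R) - (y : R) * l
      rw [LieSubalgebra.coe_bracket, LieRing.of_associative_ring_bracket]
  -- conjugations by the generators and their inverses
  have hgen : ∀ (l : R), IsNilpotent l → l ∈ L0 → ∀ g : G, IsNilpotent.exp l = φ g →
      ∀ i, ∀ w ∈ W i, cj φ g w - w ∈ W (i + 1) := by
    intro l hl hlL g hg i w hw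
    have h1 := hc R l hl (W i) (W (i + 1)) (hanti i) (fun w hw => hbr l hlL i w hw) w hw
    rw [exp_neg_eq φ hl hg, hg] at h1
    exact h1
  have hgen' : ∀ (l : R), IsNilpotent l → l ∈ L0 → ∀ g : G, IsNilpotent.exp l = φ g →
      ∀ i, ∀ w ∈ W i, cj φ g⁻¹ w - w ∈ W (i + 1) := by
    intro l hl hlL g hg i w hw
    exact hgen (-l) hl.neg (L0.neg_mem hlL) g⁻¹ (exp_neg_eq φ hl hg) i w hw
  have h0 : ∀ g i, ∀ w ∈ W i, cj φ g w - w ∈ W (i + 1) := by
    intro g
    have hg : g ∈ Subgroup.closure {a, b} := by rw [hab]; exact Subgroup.mem_top g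
    have hg' : g ∈ Submonoid.closure (({a, b} : Set G) ∪ ({a, b} : Set G)⁻¹) := by
      rw [← Subgroup.closure_toSubmonoid]
      exact hg
    refine Submonoid.closure_induction
      (motive := fun g _ => ∀ i, ∀ w ∈ W i, cj φ g w - w ∈ W (i + 1)) ?_ ?_ ?_ hg'
    · rintro x (hx | hx)
      · rcases hx with rfl | rfl
        · exact hgen la hla hlaL x hla'
        · exact hgen lb hlb hlbL x hlb'
      · rw [Set.mem_inv] at hx
        rcases hx with hx | hx
        · have : x = a⁻¹ := by rw [← hx, inv_inv]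
          rw [this]
          exact hgen' la hla hlaL a hla'
        · have hx' : x⁻¹ = b := hx
          have : x = b⁻¹ := by rw [← hx', inv_inv]
          rw [this]
          exact hgen' lb hlb hlbL b hlb'
    · intro i w _
      rw [cj_one, sub_self]
      exact Submodule.zero_mem _
    · intro x y _ _ hx hy i w hw
      rw [cj_mul]
      have hxw : cj φ x w ∈ W i := by
        have h2 := (W i).add_mem (hanti i (hx i w hw)) hw
        rwa [sub_add_cancel] at h2
      have e : cj φ y (cj φ x w) - w = (cj φ y (cj φ x w) - cj φ x w) + (cj φ x w - w) := by abel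
      rw [e]
      exact Submodule.add_mem _ (hy i _ hxw) (hx i w hw)
  have hS := lcs_le φ hanti h0
  rcases c with _ | c
  · -- trivial case
    have hz : ∀ x ∈ L0, x = 0 := by
      intro x hx
      have := (hW0 x).mpr hx
      rw [hWc] at this
      exact (Submodule.mem_bot ℚ).mp this
    have h1 : φ a = 1 := by rw [← hla', hz la hlaL, IsNilpotent.exp_zero]
    have h2 : φ b = 1 := by rw [← hlb', hz lb hlbL, IsNilpotent.exp_zero]
    intro g _
    have hg : g ∈ Subgroup.closure {a, b} := by rw [hab]; exact Subgroup.mem_top g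
    have hle : Subgroup.closure {a, b} ≤ φ.ker := by
      rw [Subgroup.closure_le]
      rintro x (rfl | rfl)
      · exact h1
      · exact h2
    exact hle hg
  · -- the lower central series
    have hcomm : ∀ g ∈ (⊤ : Subgroup G).lowerCentralSeries c, ∀ h : G,
        Commute (φ g) (φ h) := by
      intro g hg h
      have hfix : ∀ x ∈ L0, Commute (φ g) x := by
        intro x hx
        have h1 := hS c g hg 0 x ((hW0 x).mpr hx)
        rw [zero_add, hWc, Submodule.mem_bot, sub_eq_zero] at h1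
        have h2 : φ g * cj φ g x = x * φ g := by
          unfold cj
          rw [← mul_assoc, ← mul_assoc, map_mul_inv, one_mul]
        rw [h1] at h2
        exact h2
      have hga : Commute (φ g) (φ a) := by
        rw [← hla']; exact commute_exp hla (hfix la hlaL)
      have hgb : Commute (φ g) (φ b) := by
        rw [← hlb']; exact commute_exp hlb (hfix lb hlbL)
      have hh : h ∈ Subgroup.closure {a, b} := by rw [hab]; exact Subgroup.mem_top h
      refine Subgroup.closure_induction (p := fun h _ => Commute (φ g) (φ h)) ?_ ?_ ?_ ?_ hh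
      · rintro x (rfl | rfl)
        · exact hga
        · exact hgb
      · rw [map_one]; exact Commute.one_right _
      · intro x y _ _ hx hy
        rw [map_mul]
        exact hx.mul_right hy
      · intro x _ hx
        show φ g * φ x⁻¹ = φ x⁻¹ * φ g
        calc φ g * φ x⁻¹ = φ x⁻¹ * φ x * (φ g * φ x⁻¹) := by rw [map_inv_mul, one_mul]
          _ = φ x⁻¹ * (φ x * φ g) * φ x⁻¹ := by noncomm_ring
          _ = φ x⁻¹ * (φ g * φ x) * φ x⁻¹ := by rw [hx.eq]
          _ = φ x⁻¹ * φ g * (φ x * φ x⁻¹) := by noncomm_ring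
          _ = φ x⁻¹ * φ g := by rw [map_mul_inv, mul_one]
    intro g hg
    rw [Subgroup.mem_lowerCentralSeries_succ_iff] at hg
    have hle : Subgroup.closure {x : G | ∃ p ∈ (⊤ : Subgroup G).lowerCentralSeries c,
        ∃ q ∈ (⊤ : Subgroup G), ⁅p, q⁆ = x} ≤ φ.ker := by
      rw [Subgroup.closure_le]
      rintro x ⟨p, hp, q, _, rfl⟩
      show φ ⁅p, q⁆ = 1
      rw [commutatorElement_def, map_mul, map_mul, map_mul, (hcomm p hp q).eq,
        mul_assoc (φ q), map_mul_inv, mul_one, map_mul_inv]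
    exact hle hg

end Pool.Agent.Helper49.Kos
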